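import Mathlib
import Pool.Agent.Helper234.LInf.Defs
import Pool.Agent.Helper234.LInfS.Dyadic

open MeasureTheory Filter Topology

namespace Pool.Agent.X206.LLr

open Pool.Agent.Helper234.LInf Pool.Agent.Helper234.LInfS

/-- The index of the dyadic interval of level `n` containing `t`. -/
noncomputable def ix (n : ℕ) (t : ℝ) : Fin (2 ^ n) :=
  ⟨min ⌊2 ^ n * t⌋₊ (2 ^ n - 1), by
    have : 0 < 2 ^ n := by positivity
    omega⟩

lemma measurable_ix (n : ℕ) : Measurable (ix n) := by
  have h1 : Measurable fun t : ℝ => ⌊2 ^ n * t⌋₊ :=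
    Nat.measurable_floor.comp (measurable_const.mul measurable_id)
  exact (measurable_from_top (f := fun k : ℕ => (⟨min k (2 ^ n - 1), by
    have : 0 < 2 ^ n := by positivity
    omega⟩ : Fin (2 ^ n)))).comp h1

/-- The parent of an index. -/
def par (n : ℕ) (k : Fin (2 ^ (n + 1))) : Fin (2 ^ n) := ⟨k / 2, by
  have h1 := k.2
  have h2 : 2 ^ (n + 1) = 2 ^ n * 2 := pow_succ _ _
  omega⟩

lemma par_ix (n : ℕ) (t : ℝ) : ix n t = par n (ix (n + 1) t) := by
  ext
  simp only [ix, par]
  have h1 : ⌊2 ^ (n + 1) * t⌋₊ / 2 = ⌊2 ^ n * t⌋₊ := by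
    have h2 := Nat.floor_div_natCast (2 ^ (n + 1) * t) 2
    rw [← h2]
    congr 1
    rw [pow_succ]
    push_cast
    ring
  rw [← h1]
  have : 2 ^ (n + 1) = 2 * 2 ^ n := by ring
  rw [this]
  have : 0 < 2 ^ n := by positivity
  omega

lemma ix_eq_of_mem {n : ℕ} {t : ℝ} (ht : t ∈ Set.Ico (0 : ℝ) 1) : (ix n t : ℕ) = ⌊2 ^ n * t⌋₊ := by
  simp only [ix]
  have hk : ⌊2 ^ n * t⌋₊ < 2 ^ n := by
    rw [Nat.floor_lt (by have := ht.1; positivity)]
    push_cast
    have := ht.2
    have h2 : (0 : ℝ) < 2 ^ n := by positivity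
    nlinarith
  omega

/-- The cell with index `k`. -/
def cell (n : ℕ) (k : Fin (2 ^ n)) : Set ℝ := ix n ⁻¹' {k}

lemma measurableSet_cell (n : ℕ) (k : Fin (2 ^ n)) : MeasurableSet (cell n k) :=
  measurable_ix n (measurableSet_singleton k)

lemma cell_ae (n : ℕ) (k : Fin (2 ^ n)) : cell n k =ᵐ[I01] Dy n k := by
  filter_upwards [I01_ae_mem] with t ht
  apply propext
  change ix n t = k ↔ t ∈ Dy n k
  rw [mem_Dy_iff ht.1, ← ix_eq_of_mem ht]
  exact ⟨fun h => by rw [h], fun h => Fin.ext h⟩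

lemma I01_cell (n : ℕ) (k : Fin (2 ^ n)) : I01.real (cell n k) = (2 ^ n : ℝ)⁻¹ := by
  rw [measureReal_congr (cell_ae n k), Measure.real, I01,
    Measure.restrict_apply (measurableSet_Dy _ _), Set.inter_eq_left.2]
  · simp only [Dy, Real.volume_Ico]
    rw [ENNReal.toReal_ofReal]
    · field_simp
      ring
    · rw [sub_nonneg]
      gcongr
      linarith
  · rintro t ⟨h1, h2⟩
    have h3 : ((k : ℕ) : ℝ) + 1 ≤ 2 ^ n := by
      have := k.2
      exact_mod_cast this
    refine ⟨le_trans (by positivity) h1, h2.le.trans ?_⟩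
    rw [div_le_one (by positivity)]
    exact h3

section
variable {Y : Type*} [NormedAddCommGroup Y] [NormedSpace ℝ Y] [CompleteSpace Y]

/-- Integrals over unions of cells of a finite partition. -/
lemma integral_union {Ω ι : Type*} [MeasurableSpace Ω] (μ : Measure Ω) [Fintype ι]
    [DecidableEq ι] [MeasurableSpace ι] [MeasurableSingletonClass ι] (c : Ω → ι)
    (hc : Measurable c) (f : Ω → Y) (hf : Integrable f μ) (A : Finset ι) :
    ∫ ω in c ⁻¹' A, f ω ∂μ = ∑ i ∈ A, ∫ ω in c ⁻¹' {i}, f ω ∂μ := by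
  have h1 : c ⁻¹' (A : Set ι) = ⋃ i ∈ A, c ⁻¹' {i} := by
    ext ω
    simp
  rw [h1, integral_biUnion_finset A (fun i _ => hc (measurableSet_singleton i))]
  · intro i _ j _ hij
    exact Disjoint.preimage _ (by simpa using hij)
  · exact fun i _ => hf.integrableOn

lemma integral_step {Ω ι : Type*} [MeasurableSpace Ω] (μ : Measure Ω) [IsFiniteMeasure μ]
    [Fintype ι]
    [DecidableEq ι] [MeasurableSpace ι] [MeasurableSingletonClass ι] (c : Ω → ι)
    (hc : Measurable c) (φ : ι → Y) (A : Finset ι) :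
    ∫ ω in c ⁻¹' A, φ (c ω) ∂μ = ∑ i ∈ A, μ.real (c ⁻¹' {i}) • φ i := by
  have hint : Integrable (fun ω => φ (c ω)) μ := by
    refine Integrable.of_bound (C := ∑ i, ‖φ i‖) ?_ ?_
    · exact (StronglyMeasurable.of_discrete (f := φ)).comp_measurable hc |>.aestronglyMeasurable
    · exact Eventually.of_forall fun ω =>
        Finset.single_le_sum (f := fun i => ‖φ i‖) (fun i _ => norm_nonneg _) (Finset.mem_univ _)
  rw [integral_union μ c hc _ hint]
  refine Finset.sum_congr rfl fun i _ => ?_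
  rw [setIntegral_congr_fun (g := fun _ => φ i) (hc (measurableSet_singleton i)),
    setIntegral_const]
  intro ω hω
  have : c ω = i := hω
  simp only [this]

/-- Integrals over cells of the parents. -/
lemma integral_cell_succ (f : ℝ → Y) (hf : Integrable f I01) (n : ℕ) (k : Fin (2 ^ n)) :
    ∫ t in cell n k, f t ∂I01 =
      ∑ k' ∈ Finset.univ.filter (fun k' => par n k' = k), ∫ t in cell (n + 1) k', f t ∂I01 := by
  have h := integral_union I01 (ix (n + 1)) (measurable_ix _) f hf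
    (Finset.univ.filter (fun k' => par n k' = k))
  unfold cell
  rw [← h]
  congr 2
  ext t
  simp only [Set.mem_preimage, Set.mem_singleton_iff, Finset.coe_filter, Finset.mem_univ,
    true_and]
  rw [par_ix]
  rfl

end

end Pool.Agent.X206.LLr
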