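import Mathlib
import Pool.Agent.X206.LLr.Index

open MeasureTheory Filter Topology
open scoped ENNReal

namespace Pool.Agent.X206.LLr

open Pool.Agent.Helper234.LInf Pool.Agent.Helper234.LInfS

lemma measurable_of_edist {α Y : Type*} [MeasurableSpace α] [PseudoEMetricSpace Y]
    [SecondCountableTopology Y] [MeasurableSpace Y] [BorelSpace Y] (f : α → Y)
    (h : ∀ v, Measurable fun x => edist (f x) v) : Measurable f := by
  refine measurable_of_isClosed fun s hs => ?_
  obtain ⟨D, hDs, hDc, hsD⟩ :=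
    (TopologicalSpace.IsSeparable.of_separableSpace s).exists_countable_dense_subset
  have h1 : f ⁻¹' s = {x | ⨅ y ∈ D, edist (f x) y = 0} := by
    ext x
    have h2 : Metric.infEDist (f x) s = Metric.infEDist (f x) D := by
      apply le_antisymm
      · exact Metric.infEDist_anti hDs
      · rw [← Metric.infEDist_closure (s := D)]
        exact Metric.infEDist_anti hsD
    rw [Set.mem_preimage, Metric.mem_iff_infEDist_zero_of_closed hs, h2]
    rfl
  rw [h1]
  exact (Measurable.biInf D hDc fun v _ => h v) (measurableSet_singleton 0)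

/-- The mixed norm space: a jointly measurable function with bounded sections in `L^r` is an
element of the Bochner space. -/
lemma exists_bochner {𝕜 : Type} [RCLike 𝕜] (r : ℝ≥0∞) [hr1 : Fact (1 ≤ r)] (hr : r ≠ ⊤)
    (g : ℝ × ℝ → 𝕜) (hg : AEStronglyMeasurable g (I01.prod I01)) (C : ℝ) (hC : 0 ≤ C)
    (hb : ∀ᵐ s ∂I01, eLpNorm (fun t => g (s, t)) r I01 ≤ ENNReal.ofReal C) :
    ∃ F : Lp (Lp 𝕜 r I01) ⊤ I01, ‖F‖ ≤ C ∧ ∀ᵐ s ∂I01, F s =ᵐ[I01] fun t => g (s, t) := by
  have hfact : Fact (r ≠ ⊤) := ⟨hr⟩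
  have hr0 : r ≠ 0 := (lt_of_lt_of_le zero_lt_one hr1.out).ne'
  let g' := hg.mk g
  have hg' : StronglyMeasurable g' := hg.stronglyMeasurable_mk
  have hgg' : ∀ᵐ s ∂I01, ∀ᵐ t ∂I01, g (s, t) = g' (s, t) :=
    Measure.ae_ae_of_ae_prod hg.ae_eq_mk
  have hmeas : ∀ h : ℝ × ℝ → 𝕜, Measurable h →
      Measurable fun s => eLpNorm (fun t => h (s, t)) r I01 := by
    intro h hh
    simp_rw [eLpNorm_eq_lintegral_rpow_enorm_toReal hr0 hr]
    exact (Measurable.lintegral_prod_right' (f := fun q : ℝ × ℝ => ‖h q‖ₑ ^ r.toReal)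
      (hh.enorm.pow_const _)).pow_const _
  have hsec : ∀ s, StronglyMeasurable fun t => g' (s, t) := fun s =>
    hg'.comp_measurable measurable_prodMk_left
  let N : ℝ → ℝ≥0∞ := fun s => eLpNorm (fun t => g' (s, t)) r I01
  have hN : Measurable N := hmeas g' hg'.measurable
  classical
  have hmemN : ∀ s, N s ≤ ENNReal.ofReal C → MemLp (fun t => g' (s, t)) r I01 := fun s h =>
    ⟨(hsec s).aestronglyMeasurable, lt_of_le_of_lt h ENNReal.ofReal_lt_top⟩
  let F₀ : ℝ → Lp 𝕜 r I01 := fun s =>
    if h : N s ≤ ENNReal.ofReal C then (hmemN s h).toLp _ else 0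
  have hF₀1 : ∀ s, N s ≤ ENNReal.ofReal C → F₀ s =ᵐ[I01] fun t => g' (s, t) := by
    intro s h
    simp only [F₀, dif_pos h]
    exact MemLp.coeFn_toLp _
  have hF₀n : ∀ s, ‖F₀ s‖ ≤ C := by
    intro s
    by_cases h : N s ≤ ENNReal.ofReal C
    · simp only [F₀, dif_pos h]
      rw [Lp.norm_toLp]
      exact ENNReal.toReal_le_of_le_ofReal hC h
    · simp only [F₀, dif_neg h, norm_zero]
      exact hC
  let _ : MeasurableSpace (Lp 𝕜 r I01) := borel _
  have _ : BorelSpace (Lp 𝕜 r I01) := ⟨rfl⟩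
  have hF₀m : Measurable F₀ := by
    refine measurable_of_edist _ fun v => ?_
    have h1 : (fun s => edist (F₀ s) v) = fun s => if N s ≤ ENNReal.ofReal C then
        eLpNorm (fun t => g' (s, t) - v t) r I01 else ‖v‖ₑ := by
      funext s
      by_cases h : N s ≤ ENNReal.ofReal C
      · rw [if_pos h, Lp.edist_def]
        refine eLpNorm_congr_ae ?_
        filter_upwards [hF₀1 s h] with t ht
        rw [Pi.sub_apply, ht]
      · rw [if_neg h]
        simp only [F₀, dif_neg h]
        rw [edist_comm, edist_zero_right]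
    rw [h1]
    refine Measurable.ite (measurableSet_le hN measurable_const) ?_ measurable_const
    exact hmeas (fun q => g' q - v q.2)
      (hg'.measurable.sub ((Lp.stronglyMeasurable v).measurable.comp measurable_snd))
  have hF₀s : StronglyMeasurable F₀ := hF₀m.stronglyMeasurable
  have hmem : MemLp F₀ ⊤ I01 :=
    memLp_top_of_bound hF₀s.aestronglyMeasurable C (Eventually.of_forall hF₀n)
  refine ⟨hmem.toLp F₀, ?_, ?_⟩
  · have h1 := Lp.norm_le_of_ae_bound (f := hmem.toLp F₀) (C := C) hC (by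
      filter_upwards [hmem.coeFn_toLp] with s hs
      rw [hs]
      exact hF₀n s)
    simpa using h1
  · filter_upwards [hmem.coeFn_toLp, hgg', hb] with s h1 h2 h3
    have h4 : N s ≤ ENNReal.ofReal C := by
      refine le_trans (le_of_eq ?_) h3
      refine eLpNorm_congr_ae ?_
      filter_upwards [h2] with t ht
      exact ht.symm
    rw [h1]
    filter_upwards [hF₀1 s h4, h2] with t h5 h6
    rw [h5, h6]

end Pool.Agent.X206.LLr
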