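import Mathlib
import Pool.Agent.X206.LLr.Index

set_option linter.unusedSectionVars false

open MeasureTheory Filter Topology
open scoped ENNReal

namespace Pool.Agent.X206.LLr

open Pool.Agent.Helper234.LInf Pool.Agent.Helper234.LInfS

section
variable {𝕜 : Type} [RCLike 𝕜] {r : ℝ≥0∞} [hr1 : Fact (1 ≤ r)] [hrt : Fact (r ≠ ⊤)]

include hr1 hrt in
omit [RCLike 𝕜] in
lemma rho_ge : 1 ≤ r.toReal := by
  have := ENNReal.toReal_mono hrt.out hr1.out
  simpa using this

include hr1 hrt in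
lemma rho_pos : 0 < r.toReal := lt_of_lt_of_le one_pos rho_ge

include hr1 hrt in
lemma norm_rpow_PiLp {ι : Type} [Fintype ι] (v : PiLp r (fun _ : ι => 𝕜)) :
    ‖v‖ ^ r.toReal = ∑ i, ‖v i‖ ^ r.toReal := by
  have h0 : 0 < r.toReal := rho_pos
  rw [PiLp.norm_eq_sum h0, ← Real.rpow_mul (Finset.sum_nonneg fun i _ => by positivity),
    one_div, inv_mul_cancel₀ h0.ne', Real.rpow_one]

include hr1 hrt in
lemma norm_rpow_Lp (x : Lp 𝕜 r I01) : ‖x‖ ^ r.toReal = ∫ t, ‖x t‖ ^ r.toReal ∂I01 := by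
  have h0 : 0 < r.toReal := rho_pos
  have hr0 : r ≠ 0 := (lt_of_lt_of_le zero_lt_one hr1.out).ne'
  have h1 := MemLp.eLpNorm_eq_integral_rpow_norm hr0 hrt.out (Lp.memLp x)
  have h2 : 0 ≤ ∫ t, ‖x t‖ ^ r.toReal ∂I01 := integral_nonneg fun t => by positivity
  rw [Lp.norm_def, h1, ENNReal.toReal_ofReal (by positivity),
    ← Real.rpow_mul h2, inv_mul_cancel₀ h0.ne', Real.rpow_one]

include hr1 hrt in
lemma le_of_rpow {a b : ℝ} (ha : 0 ≤ a) (hb : 0 ≤ b) (h : a ^ r.toReal ≤ b ^ r.toReal) : a ≤ b :=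
  (Real.rpow_le_rpow_iff ha hb rho_pos).1 h

include hr1 hrt in
lemma integrable_Lp (x : Lp 𝕜 r I01) : Integrable x I01 := (Lp.memLp x).integrable hr1.out

include hr1 hrt in
lemma integrable_rpow (x : Lp 𝕜 r I01) : Integrable (fun t => ‖x t‖ ^ r.toReal) I01 :=
  (Lp.memLp x).integrable_norm_rpow (lt_of_lt_of_le zero_lt_one hr1.out).ne' hrt.out

/-- Scaling factor. -/
noncomputable def kap (r : ℝ≥0∞) (n : ℕ) : ℝ := (2 ^ n : ℝ) ^ (1 / r.toReal)

lemma kap_pos (n : ℕ) : 0 < kap r n := by unfold kap; positivity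

include hr1 hrt in
lemma kap_rpow (n : ℕ) : kap r n ^ r.toReal = 2 ^ n := by
  have h0 : 0 < r.toReal := rho_pos
  unfold kap
  rw [← Real.rpow_mul (by positivity), one_div, inv_mul_cancel₀ h0.ne', Real.rpow_one]

lemma memLp_step (n : ℕ) (v : Fin (2 ^ n) → 𝕜) :
    MemLp (fun t => (kap r n : ℝ) • v (ix n t)) r I01 := by
  refine MemLp.of_bound (C := ∑ i, ‖kap r n • v i‖) ?_ ?_
  · exact ((StronglyMeasurable.of_discrete (f := fun i => kap r n • v i)).comp_measurable
      (measurable_ix n)).aestronglyMeasurable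
  · exact Eventually.of_forall fun t =>
      Finset.single_le_sum (f := fun i => ‖kap r n • v i‖) (fun i _ => norm_nonneg _)
        (Finset.mem_univ _)

lemma integral_ix {Y : Type*} [NormedAddCommGroup Y] [NormedSpace ℝ Y] [CompleteSpace Y] (n : ℕ)
    (φ : Fin (2 ^ n) → Y) : ∫ t, φ (ix n t) ∂I01 = ∑ i, (2 ^ n : ℝ)⁻¹ • φ i := by
  have h := integral_step I01 (ix n) (measurable_ix n) φ Finset.univ
  rw [Finset.coe_univ, Set.preimage_univ, setIntegral_univ] at h
  rw [h]
  refine Finset.sum_congr rfl fun i _ => ?_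
  have := I01_cell n i
  unfold cell at this
  rw [this]

lemma integral_ix_cell {Y : Type*} [NormedAddCommGroup Y] [NormedSpace ℝ Y] [CompleteSpace Y]
    (n : ℕ) (φ : Fin (2 ^ n) → Y) (k : Fin (2 ^ n)) :
    ∫ t in cell n k, φ (ix n t) ∂I01 = (2 ^ n : ℝ)⁻¹ • φ k := by
  rw [setIntegral_congr_fun (g := fun _ => φ k) (measurableSet_cell n k), setIntegral_const,
    I01_cell]
  intro t ht
  have : ix n t = k := ht
  simp only [this]

variable (𝕜 r) in
/-- Step functions of level `n` with values `v`, suitably scaled. -/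
noncomputable def und (n : ℕ) : PiLp r (fun _ : Fin (2 ^ n) => 𝕜) →L[𝕜] Lp 𝕜 r I01 :=
  LinearMap.mkContinuous
    { toFun := fun v => (memLp_step (r := r) n (fun i => v i)).toLp _
      map_add' := fun v v' => by
        rw [← MemLp.toLp_add]
        congr 1
        funext t
        simp
      map_smul' := fun c v => by
        rw [RingHom.id_apply, ← MemLp.toLp_const_smul]
        congr 1
        funext t
        simp only [PiLp.smul_apply, Pi.smul_apply]
        rw [smul_comm] } 1 (fun v => by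
    rw [one_mul]
    refine le_of_rpow (r := r) (norm_nonneg _) (norm_nonneg _) (le_of_eq ?_)
    rw [norm_rpow_Lp, norm_rpow_PiLp]
    have h1 : ∫ t, ‖(memLp_step (r := r) n (fun i => v i)).toLp _ t‖ ^ r.toReal ∂I01 =
        ∫ t, ‖kap r n • v (ix n t)‖ ^ r.toReal ∂I01 := by
      refine integral_congr_ae ?_
      filter_upwards [(memLp_step (r := r) n (fun i => v i)).coeFn_toLp] with t ht
      rw [ht]
    refine h1.trans ?_
    rw [integral_ix n (fun i => ‖kap r n • v i‖ ^ r.toReal)]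
    refine Finset.sum_congr rfl fun i _ => ?_
    rw [norm_smul, Real.mul_rpow (norm_nonneg _) (norm_nonneg _), Real.norm_eq_abs,
      abs_of_pos (kap_pos n), kap_rpow, smul_eq_mul, ← mul_assoc, inv_mul_cancel₀ (by positivity),
      one_mul])

lemma und_coe (n : ℕ) (v : PiLp r (fun _ : Fin (2 ^ n) => 𝕜)) :
    und 𝕜 r n v =ᵐ[I01] fun t => kap r n • v (ix n t) :=
  (memLp_step (r := r) n (fun i => v i)).coeFn_toLp

lemma norm_und_le (n : ℕ) (v : PiLp r (fun _ : Fin (2 ^ n) => 𝕜)) : ‖und 𝕜 r n v‖ ≤ ‖v‖ := by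
  have := (und 𝕜 r n).le_of_opNorm_le (LinearMap.mkContinuous_norm_le _ zero_le_one _) v
  rwa [one_mul] at this

lemma jensen_cell (x : Lp 𝕜 r I01) (n : ℕ) (k : Fin (2 ^ n)) :
    (2 ^ n * ‖∫ t in cell n k, x t ∂I01‖) ^ r.toReal ≤
      2 ^ n * ∫ t in cell n k, ‖x t‖ ^ r.toReal ∂I01 := by
  have h0 : 0 < r.toReal := rho_pos
  have hc : I01.real (cell n k) = (2 ^ n : ℝ)⁻¹ := I01_cell n k
  have h1 := (convexOn_rpow (p := r.toReal) rho_ge).map_set_average_le (μ := I01)
    (t := cell n k) (f := fun t => ‖x t‖)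
    (Real.continuous_rpow_const h0.le |>.continuousOn) isClosed_Ici
    (by
      intro h
      rw [Measure.real, h] at hc
      have : (0 : ℝ) < (2 ^ n : ℝ)⁻¹ := by positivity
      rw [← hc] at this
      simp at this) (measure_ne_top _ _)
    (Eventually.of_forall fun t => norm_nonneg _) (integrable_Lp x).norm.integrableOn
    (integrable_rpow x).integrableOn
  simp only [setAverage_eq, hc, inv_inv, smul_eq_mul] at h1
  refine le_trans ?_ h1
  refine Real.rpow_le_rpow (by positivity) ?_ h0.le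
  gcongr
  exact norm_integral_le_integral_norm _

variable (𝕜 r) in
/-- Averages of level `n`, suitably scaled. -/
noncomputable def disc (n : ℕ) : Lp 𝕜 r I01 →L[𝕜] PiLp r (fun _ : Fin (2 ^ n) => 𝕜) :=
  LinearMap.mkContinuous
    { toFun := fun x => WithLp.toLp r fun k =>
        ((kap r n)⁻¹ * 2 ^ n : ℝ) • ∫ t in cell n k, x t ∂I01
      map_add' := fun x y => by
        ext k
        simp only [PiLp.add_apply]
        rw [← smul_add, ← integral_add (integrable_Lp x).integrableOn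
          (integrable_Lp y).integrableOn]
        congr 1
        exact integral_congr_ae (ae_restrict_of_ae (Lp.coeFn_add x y))
      map_smul' := fun c x => by
        ext k
        simp only [PiLp.smul_apply, RingHom.id_apply]
        have h : ∫ t in cell n k, (c • x : Lp 𝕜 r I01) t ∂I01 = c • ∫ t in cell n k, x t ∂I01 := by
          rw [← integral_smul]
          exact integral_congr_ae (ae_restrict_of_ae (Lp.coeFn_smul c x))
        rw [h, smul_comm] } 1 (fun x => by
    rw [one_mul]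
    refine le_of_rpow (r := r) (norm_nonneg _) (norm_nonneg _) ?_
    rw [norm_rpow_Lp, norm_rpow_PiLp]
    have h1 : ∀ k : Fin (2 ^ n), ‖((kap r n)⁻¹ * 2 ^ n : ℝ) • ∫ t in cell n k, x t ∂I01‖ ^ r.toReal
        ≤ ∫ t in cell n k, ‖x t‖ ^ r.toReal ∂I01 := by
      intro k
      have h2 : ‖((kap r n)⁻¹ * 2 ^ n : ℝ) • ∫ t in cell n k, x t ∂I01‖ =
          (kap r n)⁻¹ * (2 ^ n * ‖∫ t in cell n k, x t ∂I01‖) := by
        rw [norm_smul, Real.norm_eq_abs, abs_of_pos (by have := kap_pos (r := r) n; positivity)]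
        ring
      rw [h2, Real.mul_rpow (by have := kap_pos (r := r) n; positivity) (by positivity),
        Real.inv_rpow (kap_pos n).le, kap_rpow]
      calc (2 ^ n : ℝ)⁻¹ * (2 ^ n * ‖∫ t in cell n k, x t ∂I01‖) ^ r.toReal
          ≤ (2 ^ n : ℝ)⁻¹ * (2 ^ n * ∫ t in cell n k, ‖x t‖ ^ r.toReal ∂I01) := by
            gcongr
            exact jensen_cell x n k
        _ = _ := by rw [← mul_assoc, inv_mul_cancel₀ (by positivity), one_mul]
    refine (Finset.sum_le_sum fun k _ => h1 k).trans (le_of_eq ?_)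
    have h3 := integral_union I01 (ix n) (measurable_ix n) _ (integrable_rpow x) Finset.univ
    rw [Finset.coe_univ, Set.preimage_univ, setIntegral_univ] at h3
    exact h3.symm)

lemma disc_apply (n : ℕ) (x : Lp 𝕜 r I01) (k : Fin (2 ^ n)) :
    disc 𝕜 r n x k = ((kap r n)⁻¹ * 2 ^ n : ℝ) • ∫ t in cell n k, x t ∂I01 := rfl

lemma norm_disc_le (n : ℕ) (x : Lp 𝕜 r I01) : ‖disc 𝕜 r n x‖ ≤ ‖x‖ := by
  have := (disc 𝕜 r n).le_of_opNorm_le (LinearMap.mkContinuous_norm_le _ zero_le_one _) x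
  rwa [one_mul] at this

lemma disc_und (n : ℕ) (v : PiLp r (fun _ : Fin (2 ^ n) => 𝕜)) : disc 𝕜 r n (und 𝕜 r n v) = v := by
  ext k
  rw [disc_apply]
  have h1 : ∫ t in cell n k, und 𝕜 r n v t ∂I01 = ∫ t in cell n k, kap r n • v (ix n t) ∂I01 :=
    integral_congr_ae (ae_restrict_of_ae (und_coe n v))
  rw [h1, integral_ix_cell n (fun i => kap r n • v i), smul_smul, smul_smul]
  have : (kap r n)⁻¹ * 2 ^ n * (2 ^ n)⁻¹ * kap r n = 1 := by
    have := (kap_pos (r := r) n).ne'
    field_simp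
  rw [this, one_smul]

/-- The projection onto step functions is given by averages. -/
lemma und_disc_coe (n : ℕ) (x : Lp 𝕜 r I01) :
    und 𝕜 r n (disc 𝕜 r n x) =ᵐ[I01] fun t => (2 ^ n : ℝ) • ∫ s in cell n (ix n t), x s ∂I01 := by
  filter_upwards [und_coe n (disc 𝕜 r n x)] with t ht
  rw [ht, disc_apply, smul_smul]
  congr 1
  have := (kap_pos (r := r) n).ne'
  field_simp

end

end Pool.Agent.X206.LLr
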