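import Mathlib
import Pool.Agent.X206.LLr.Index

open MeasureTheory Filter Topology

namespace Pool.Agent.X206.LLr

/-- Martingales given by consistent weights on refining finite partitions with cells of equal
probability converge almost everywhere when they are bounded in mean. -/
lemma mart_conv {Ω : Type*} [m0 : MeasurableSpace Ω] (P : Measure Ω) [IsProbabilityMeasure P]
    (ι : ℕ → Type) [∀ n, Fintype (ι n)] [∀ n, DecidableEq (ι n)] [∀ n, MeasurableSpace (ι n)]
    [∀ n, MeasurableSingletonClass (ι n)] (c : ∀ n, Ω → ι n) (hc : ∀ n, Measurable (c n))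
    (ρ : ∀ n, ι (n + 1) → ι n) (hρ : ∀ n ω, c n ω = ρ n (c (n + 1) ω))
    (p : ℕ → ℝ) (hp : ∀ n i, P.real (c n ⁻¹' {i}) = p n) (hp0 : ∀ n, 0 < p n)
    (w : ∀ n, ι n → ℝ)
    (hw : ∀ n i, w n i = ∑ i' ∈ Finset.univ.filter (fun i' => ρ n i' = i), w (n + 1) i')
    (R : NNReal) (hR : ∀ n, ∑ i, |w n i| ≤ R) :
    ∀ᵐ ω ∂P, ∃ a, Tendsto (fun n => (p n)⁻¹ * w n (c n ω)) atTop (𝓝 a) := by
  let ℱ : Filtration ℕ m0 :=
    { seq := fun n => MeasurableSpace.comap (c n) inferInstance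
      mono' := by
        refine monotone_nat_of_le_succ fun n => ?_
        rintro _ ⟨A, hA, rfl⟩
        refine ⟨ρ n ⁻¹' A, (Set.toFinite _).measurableSet, ?_⟩
        ext ω
        simp [hρ n ω]
      le' := fun n => (hc n).comap_le }
  let M : ℕ → Ω → ℝ := fun n ω => (p n)⁻¹ * w n (c n ω)
  have hadp : ∀ n, StronglyMeasurable[ℱ n] (M n) := fun n => by
    have h1 : Measurable[MeasurableSpace.comap (c n) inferInstance] (c n) :=
      comap_measurable (c n)
    have h2 : Measurable (fun i : ι n => (p n)⁻¹ * w n i) := measurable_of_finite _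
    exact (h2.comp h1).stronglyMeasurable
  have hint : ∀ n, Integrable (M n) P := fun n => by
    refine Integrable.of_bound (C := ∑ i, ‖(p n)⁻¹ * w n i‖)
      ((hadp n).mono (hc n).comap_le).aestronglyMeasurable ?_
    exact Eventually.of_forall fun ω =>
      Finset.single_le_sum (f := fun i => ‖(p n)⁻¹ * w n i‖) (fun i _ => norm_nonneg _)
        (Finset.mem_univ _)
  have key : ∀ n (A : Finset (ι n)), ∫ ω in c n ⁻¹' A, M n ω ∂P = ∑ i ∈ A, w n i := fun n A => by
    rw [integral_step P (c n) (hc n) (fun i => (p n)⁻¹ * w n i) A]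
    refine Finset.sum_congr rfl fun i _ => ?_
    rw [hp, smul_eq_mul, ← mul_assoc, mul_inv_cancel₀ (hp0 n).ne', one_mul]
  have hmart : Martingale M ℱ P := by
    refine martingale_of_setIntegral_eq_succ hadp hint ?_
    rintro n s ⟨A, -, rfl⟩
    classical
    have h1 : c n ⁻¹' A = c n ⁻¹' (A.toFinset : Set (ι n)) := by simp
    have h2 : c n ⁻¹' A = c (n + 1) ⁻¹'
        ((Finset.univ.filter fun i' => ρ n i' ∈ A.toFinset : Finset (ι (n + 1))) :
          Set (ι (n + 1))) := by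
      ext ω
      simp [hρ n ω]
    nth_rewrite 1 [h1]
    rw [h2, key, key]
    rw [Finset.sum_congr rfl (fun i _ => hw n i)]
    rw [← Finset.sum_fiberwise_of_maps_to (g := ρ n) (t := A.toFinset)]
    · refine Finset.sum_congr rfl fun i hi => ?_
      refine Finset.sum_congr ?_ fun _ _ => rfl
      ext i'
      simp only [Finset.mem_filter, Finset.mem_univ, true_and]
      exact ⟨fun h => ⟨by rw [h]; exact hi, h⟩, fun h => h.2⟩
    · intro i' hi'
      exact (Finset.mem_filter.1 hi').2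
  have hbdd : ∀ n, eLpNorm (M n) 1 P ≤ R := by
    intro n
    rw [eLpNorm_one_eq_lintegral_enorm]
    have h1 : ∫⁻ ω, ‖M n ω‖ₑ ∂P = ENNReal.ofReal (∫ ω, ‖M n ω‖ ∂P) := by
      rw [ofReal_integral_eq_lintegral_ofReal (hint n).norm
        (Eventually.of_forall fun _ => norm_nonneg _)]
      refine lintegral_congr fun ω => ?_
      rw [ofReal_norm_eq_enorm]
    rw [h1]
    have h2 : ∫ ω, ‖M n ω‖ ∂P = ∑ i, |w n i| := by
      have h3 := integral_step P (c n) (hc n) (fun i => ‖(p n)⁻¹ * w n i‖) Finset.univ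
      rw [Finset.coe_univ, Set.preimage_univ, setIntegral_univ] at h3
      rw [h3]
      refine Finset.sum_congr rfl fun i _ => ?_
      rw [hp, smul_eq_mul, norm_mul, Real.norm_eq_abs, Real.norm_eq_abs, abs_inv,
        abs_of_pos (hp0 n), ← mul_assoc, mul_inv_cancel₀ (hp0 n).ne', one_mul]
    rw [h2]
    refine ENNReal.ofReal_le_of_le_toReal ?_
    simpa using hR n
  exact hmart.submartingale.exists_ae_tendsto_of_bdd hbdd

/-- The scalar version over the real or complex numbers. -/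
lemma mart_conv' {𝕜 : Type*} [RCLike 𝕜] {Ω : Type*} [m0 : MeasurableSpace Ω] (P : Measure Ω)
    [IsProbabilityMeasure P]
    (ι : ℕ → Type) [∀ n, Fintype (ι n)] [∀ n, DecidableEq (ι n)] [∀ n, MeasurableSpace (ι n)]
    [∀ n, MeasurableSingletonClass (ι n)] (c : ∀ n, Ω → ι n) (hc : ∀ n, Measurable (c n))
    (ρ : ∀ n, ι (n + 1) → ι n) (hρ : ∀ n ω, c n ω = ρ n (c (n + 1) ω))
    (p : ℕ → ℝ) (hp : ∀ n i, P.real (c n ⁻¹' {i}) = p n) (hp0 : ∀ n, 0 < p n)
    (w : ∀ n, ι n → 𝕜)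
    (hw : ∀ n i, w n i = ∑ i' ∈ Finset.univ.filter (fun i' => ρ n i' = i), w (n + 1) i')
    (R : NNReal) (hR : ∀ n, ∑ i, ‖w n i‖ ≤ R) :
    ∀ᵐ ω ∂P, ∃ a : 𝕜, Tendsto (fun n => ((p n)⁻¹ : ℝ) • w n (c n ω)) atTop (𝓝 a) := by
  have h1 := mart_conv P ι c hc ρ hρ p hp hp0 (fun n i => RCLike.re (w n i))
    (fun n i => by rw [hw n i, map_sum]) R
    (fun n => (Finset.sum_le_sum fun i _ => RCLike.abs_re_le_norm _).trans (hR n))
  have h2 := mart_conv P ι c hc ρ hρ p hp hp0 (fun n i => RCLike.im (w n i))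
    (fun n i => by rw [hw n i, map_sum]) R
    (fun n => (Finset.sum_le_sum fun i _ => RCLike.abs_im_le_norm _).trans (hR n))
  filter_upwards [h1, h2] with ω hω1 hω2
  obtain ⟨a, ha⟩ := hω1
  obtain ⟨b, hb⟩ := hω2
  refine ⟨(a : 𝕜) + (b : 𝕜) * RCLike.I, ?_⟩
  have h3 : Tendsto (fun n => (((p n)⁻¹ * RCLike.re (w n (c n ω)) : ℝ) : 𝕜) +
      (((p n)⁻¹ * RCLike.im (w n (c n ω)) : ℝ) : 𝕜) * RCLike.I) atTop
      (𝓝 ((a : 𝕜) + (b : 𝕜) * RCLike.I)) :=
    ((RCLike.continuous_ofReal.tendsto a).comp ha).add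
      (((RCLike.continuous_ofReal.tendsto b).comp hb).mul_const _)
  refine h3.congr fun n => ?_
  rw [RCLike.real_smul_eq_coe_mul]
  conv_rhs => rw [← RCLike.re_add_im (w n (c n ω))]
  push_cast
  ring

end Pool.Agent.X206.LLr
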