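import Mathlib
import Pool.Agent.X206.LLr.Disc
import Pool.Agent.Helper234.LInfS.Suff

set_option linter.unusedSectionVars false

open MeasureTheory Filter Topology
open scoped ENNReal

namespace Pool.Agent.X206.LLr

open Pool.Agent.Helper234.LInf Pool.Agent.Helper234.LInfS

section gen
variable {𝕜 : Type*} [RCLike 𝕜] {V : Type*} [NormedAddCommGroup V] [NormedSpace 𝕜 V]
  {W : ℕ → Type*} [∀ n, NormedAddCommGroup (W n)] [∀ n, NormedSpace 𝕜 (W n)]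

/-- A sequence of contractions gives a contraction into the `ℓ^∞`-sum. -/
noncomputable def toL (g : ∀ n, V →L[𝕜] W n) (h : ∀ n v, ‖g n v‖ ≤ ‖v‖) : V →L[𝕜] lp W ⊤ :=
  LinearMap.mkContinuous
    { toFun := fun v => ⟨fun n => g n v, memℓp_infty ⟨‖v‖, by
        rintro _ ⟨n, rfl⟩; exact h n v⟩⟩
      map_add' := fun v w => by ext n; exact (g n).map_add v w
      map_smul' := fun c v => by ext n; exact (g n).map_smul c v } 1 (fun v => by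
        rw [one_mul]
        exact lp.norm_le_of_forall_le (norm_nonneg _) (fun n => h n v))

@[simp] theorem toL_apply (g : ∀ n, V →L[𝕜] W n) (h : ∀ n v, ‖g n v‖ ≤ ‖v‖) (v : V) (n : ℕ) :
    (toL g h v) n = g n v := rfl

theorem norm_toL_le (g : ∀ n, V →L[𝕜] W n) (h : ∀ n v, ‖g n v‖ ≤ ‖v‖) (v : V) :
    ‖toL g h v‖ ≤ ‖v‖ :=
  lp.norm_le_of_forall_le (norm_nonneg _) (fun n => h n v)

variable (𝕜 W) in
/-- Evaluation at an index. -/
noncomputable def evL (n : ℕ) : lp W ⊤ →L[𝕜] W n :=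
  LinearMap.mkContinuous
    { toFun := fun x => x n
      map_add' := fun v w => by simp
      map_smul' := fun c v => by simp } 1 (fun v => by
        rw [one_mul]; exact lp.norm_apply_le_norm (by simp) v n)

@[simp] theorem evL_apply (n : ℕ) (x : lp W ⊤) : evL 𝕜 W n x = x n := rfl

variable (𝕜) in
theorem norm_evL_le (n : ℕ) (x : lp W ⊤) : ‖evL 𝕜 W n x‖ ≤ ‖x‖ :=
  lp.norm_apply_le_norm (by simp) x n

/-- `E` is isomorphic to a complemented subspace of `F`. -/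
def Compl (𝕜 : Type*) [RCLike 𝕜] (E F : Type*) [NormedAddCommGroup E] [NormedSpace 𝕜 E]
    [NormedAddCommGroup F] [NormedSpace 𝕜 F] : Prop :=
  ∃ (j : E →L[𝕜] F) (q : F →L[𝕜] E), ∀ x, q (j x) = x

theorem Compl.trans {E F G : Type*} [NormedAddCommGroup E] [NormedSpace 𝕜 E]
    [NormedAddCommGroup F] [NormedSpace 𝕜 F] [NormedAddCommGroup G] [NormedSpace 𝕜 G]
    (h1 : Compl 𝕜 E F) (h2 : Compl 𝕜 F G) : Compl 𝕜 E G := by
  obtain ⟨j, q, h⟩ := h1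
  obtain ⟨j', q', h'⟩ := h2
  exact ⟨j'.comp j, q.comp q', fun x => by simp [h, h']⟩

theorem Compl.of_equiv {E F : Type*} [NormedAddCommGroup E] [NormedSpace 𝕜 E]
    [NormedAddCommGroup F] [NormedSpace 𝕜 F] (e : E ≃L[𝕜] F) : Compl 𝕜 E F :=
  ⟨e, e.symm, fun x => by simp⟩

variable (𝕜 V) in
/-- `ℓ^∞(V) ≃ ℓ^∞(V) × V`. -/
theorem linf_cons : Nonempty (lp (fun _ : ℕ => V) ⊤ ≃L[𝕜] lp (fun _ : ℕ => V) ⊤ × V) := by
  let f : lp (fun _ : ℕ => V) ⊤ →L[𝕜] lp (fun _ : ℕ => V) ⊤ × V :=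
    (toL (W := fun _ : ℕ => V) (fun n => evL 𝕜 (fun _ : ℕ => V) (n + 1))
      (fun n v => norm_evL_le 𝕜 _ _)).prod (evL 𝕜 (fun _ : ℕ => V) 0)
  let g : lp (fun _ : ℕ => V) ⊤ × V →L[𝕜] lp (fun _ : ℕ => V) ⊤ :=
    toL (W := fun _ : ℕ => V) (fun n => if n = 0 then ContinuousLinearMap.snd 𝕜 _ _ else
      (evL 𝕜 (fun _ : ℕ => V) (n - 1)).comp (ContinuousLinearMap.fst 𝕜 _ _)) (fun n v => by
        split_ifs
        · exact norm_snd_le v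
        · exact (norm_evL_le 𝕜 _ _).trans (norm_fst_le v))
  refine ⟨ContinuousLinearEquiv.equivOfInverse f g (fun x => ?_) (fun y => ?_)⟩
  · ext n
    rcases n with _ | n
    · simp [f, g]
    · simp [f, g]
  · refine Prod.ext ?_ ?_
    · ext n
      simp [f, g]
    · simp [f, g]

variable (𝕜 V) in
/-- `ℓ^∞(ℓ^∞(V)) ≃ ℓ^∞(V)`. -/
theorem linf_linf : Nonempty (lp (fun _ : ℕ => lp (fun _ : ℕ => V) ⊤) ⊤ ≃L[𝕜]
    lp (fun _ : ℕ => V) ⊤) := by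
  let f : lp (fun _ : ℕ => lp (fun _ : ℕ => V) ⊤) ⊤ →L[𝕜] lp (fun _ : ℕ => V) ⊤ :=
    toL (W := fun _ : ℕ => V) (fun n => (evL 𝕜 (fun _ : ℕ => V) n.unpair.1).comp
      (evL 𝕜 (fun _ : ℕ => lp (fun _ : ℕ => V) ⊤) n.unpair.2))
      (fun n v => (norm_evL_le 𝕜 _ _).trans (norm_evL_le 𝕜 _ _))
  let g : lp (fun _ : ℕ => V) ⊤ →L[𝕜] lp (fun _ : ℕ => lp (fun _ : ℕ => V) ⊤) ⊤ :=
    toL (W := fun _ : ℕ => lp (fun _ : ℕ => V) ⊤) (fun k => toL (W := fun _ : ℕ => V)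
      (fun n => evL 𝕜 (fun _ : ℕ => V) (Nat.pair n k)) (fun n v => norm_evL_le 𝕜 _ _))
      (fun n v => norm_toL_le _ _ _)
  refine ⟨ContinuousLinearEquiv.equivOfInverse f g (fun x => ?_) (fun y => ?_)⟩
  · ext k n
    simp [f, g]
  · ext n
    simp [f, g]

/-- Complementation passes to `ℓ^∞`-sums. -/
theorem Compl.linf {E F : Type*} [NormedAddCommGroup E] [NormedSpace 𝕜 E]
    [NormedAddCommGroup F] [NormedSpace 𝕜 F]
    (j : E →L[𝕜] F) (q : F →L[𝕜] E) (hj : ∀ x, ‖j x‖ ≤ ‖x‖) (hq : ∀ x, ‖q x‖ ≤ ‖x‖)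
    (h : ∀ x, q (j x) = x) : Compl 𝕜 (lp (fun _ : ℕ => E) ⊤) (lp (fun _ : ℕ => F) ⊤) :=
  ⟨toL (W := fun _ : ℕ => F) (fun n => j.comp (evL 𝕜 (fun _ : ℕ => E) n))
      (fun n v => (hj _).trans (norm_evL_le 𝕜 _ _)),
    toL (W := fun _ : ℕ => E) (fun n => q.comp (evL 𝕜 (fun _ : ℕ => F) n))
      (fun n v => (hq _).trans (norm_evL_le 𝕜 _ _)), fun x => by
      ext n
      simp [h]⟩

end gen

section
variable {𝕜 : Type} [RCLike 𝕜] {r : ℝ≥0∞} [hr1 : Fact (1 ≤ r)] [hrt : Fact (r ≠ ⊤)]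

include hr1 hrt in
lemma norm_cut_aux (a b : ℕ) (v : PiLp r (fun _ : Fin a => 𝕜)) :
    ‖(WithLp.toLp r fun j : Fin b => if h : j.1 < a then v ⟨j.1, h⟩ else 0 :
      PiLp r (fun _ : Fin b => 𝕜))‖ ≤ ‖v‖ := by
  have h0 : 0 < r.toReal := rho_pos
  refine le_of_rpow (r := r) (norm_nonneg _) (norm_nonneg _) ?_
  rw [norm_rpow_PiLp, norm_rpow_PiLp]
  let u : ℕ → ℝ := fun j => if h : j < a then ‖v ⟨j, h⟩‖ ^ r.toReal else 0
  have hu : ∀ j, 0 ≤ u j := fun j => by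
    simp only [u]
    split_ifs
    · positivity
    · exact le_rfl
  have h1 : ∀ j : Fin b, ‖(WithLp.toLp r fun j : Fin b => if h : j.1 < a then v ⟨j.1, h⟩ else 0 :
      PiLp r (fun _ : Fin b => 𝕜)) j‖ ^ r.toReal = u j := by
    intro j
    simp only [u]
    split_ifs with h
    · rfl
    · rw [norm_zero, Real.zero_rpow h0.ne']
  have h2 : ∀ i : Fin a, ‖v i‖ ^ r.toReal = u i := by
    intro i
    simp only [u]
    rw [dif_pos i.2]
  rw [Finset.sum_congr rfl fun j _ => h1 j, Finset.sum_congr rfl fun i _ => h2 i,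
    Fin.sum_univ_eq_sum_range, Fin.sum_univ_eq_sum_range]
  have h3 : ∑ j ∈ Finset.range b, u j = ∑ j ∈ (Finset.range b).filter (· < a), u j := by
    rw [Finset.sum_filter_of_ne]
    intro j _ hj
    by_contra hcon
    exact hj (by simp only [u]; rw [dif_neg hcon])
  rw [h3]
  refine Finset.sum_le_sum_of_subset_of_nonneg ?_ fun j _ _ => hu j
  intro j hj
  exact Finset.mem_range.2 (Finset.mem_filter.1 hj).2

variable (𝕜 r) in
/-- Padding with zeros or cutting. -/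
noncomputable def cut (a b : ℕ) : PiLp r (fun _ : Fin a => 𝕜) →L[𝕜] PiLp r (fun _ : Fin b => 𝕜) :=
  LinearMap.mkContinuous
    { toFun := fun v => WithLp.toLp r fun j => if h : j.1 < a then v ⟨j.1, h⟩ else 0
      map_add' := fun v w => by
        ext j
        simp only [PiLp.add_apply]
        split_ifs <;> simp
      map_smul' := fun c v => by
        ext j
        simp only [PiLp.smul_apply, RingHom.id_apply]
        split_ifs <;> simp } 1 (fun v => by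
      rw [one_mul]
      exact norm_cut_aux a b v)

lemma norm_cut_le (a b : ℕ) (v : PiLp r (fun _ : Fin a => 𝕜)) : ‖cut 𝕜 r a b v‖ ≤ ‖v‖ :=
  norm_cut_aux a b v

lemma cut_cut {a b : ℕ} (hab : a ≤ b) (v : PiLp r (fun _ : Fin a => 𝕜)) :
    cut 𝕜 r b a (cut 𝕜 r a b v) = v := by
  ext i
  change (if h : i.1 < b then (if h' : i.1 < a then v ⟨i.1, h'⟩ else 0) else 0) = v i
  rw [dif_pos (i.2.trans_le hab), dif_pos i.2]

variable (𝕜 r) in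
/-- The `ℓ^∞`-sum of the spaces `ℓ_r^n`, `n ≥ 1`. -/
abbrev BB : Type := lp (fun n : ℕ => PiLp r (fun _ : Fin (n + 1) => 𝕜)) ⊤

variable (𝕜 r) in
theorem linf_BB_compl : Compl 𝕜 (lp (fun _ : ℕ => BB 𝕜 r) ⊤) (BB 𝕜 r) := by
  let J : lp (fun _ : ℕ => BB 𝕜 r) ⊤ →L[𝕜] BB 𝕜 r :=
    toL (W := fun n : ℕ => PiLp r (fun _ : Fin (n + 1) => 𝕜))
      (fun N => (cut 𝕜 r (N.unpair.1 + 1) (N + 1)).comp
        ((evL 𝕜 (fun n : ℕ => PiLp r (fun _ : Fin (n + 1) => 𝕜)) N.unpair.1).comp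
          (evL 𝕜 (fun _ : ℕ => BB 𝕜 r) N.unpair.2)))
      (fun N v => (norm_cut_le _ _ _).trans ((norm_evL_le 𝕜 _ _).trans (norm_evL_le 𝕜 _ _)))
  let P : BB 𝕜 r →L[𝕜] lp (fun _ : ℕ => BB 𝕜 r) ⊤ :=
    toL (W := fun _ : ℕ => BB 𝕜 r) (fun k =>
      toL (W := fun n : ℕ => PiLp r (fun _ : Fin (n + 1) => 𝕜)) (fun n =>
        (cut 𝕜 r (Nat.pair n k + 1) (n + 1)).comp
          (evL 𝕜 (fun n : ℕ => PiLp r (fun _ : Fin (n + 1) => 𝕜)) (Nat.pair n k)))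
        (fun n v => (norm_cut_le _ _ _).trans (norm_evL_le 𝕜 _ _)))
      (fun k v => norm_toL_le _ _ _)
  refine ⟨J, P, fun x => ?_⟩
  apply lp.ext
  funext k
  apply lp.ext
  funext n
  change cut 𝕜 r (Nat.pair n k + 1) (n + 1) (cut 𝕜 r ((Nat.pair n k).unpair.1 + 1)
    (Nat.pair n k + 1) ((x (Nat.pair n k).unpair.2 : BB 𝕜 r) (Nat.pair n k).unpair.1)) = x k n
  have key : ∀ a b : ℕ, a = n → b = k → cut 𝕜 r (Nat.pair n k + 1) (n + 1) (cut 𝕜 r (a + 1)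
      (Nat.pair n k + 1) ((x b : BB 𝕜 r) a)) = x k n := by
    rintro a b rfl rfl
    exact cut_cut (Nat.succ_le_succ (Nat.left_le_pair _ _)) _
  exact key _ _ (by simp) (by simp)

variable (𝕜 r) in
/-- `BB ≃ ℓ^∞(BB)`. -/
theorem BB_equiv : Nonempty (BB 𝕜 r ≃L[𝕜] lp (fun _ : ℕ => BB 𝕜 r) ⊤) := by
  obtain ⟨j, q, hjq⟩ := linf_BB_compl 𝕜 r
  have e1 : BB 𝕜 r ≃L[𝕜] lp (fun _ : ℕ => BB 𝕜 r) ⊤ × q.ker :=
    ContinuousLinearEquiv.equivOfRightInverse q j hjq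
  obtain ⟨e2⟩ := square_lp 𝕜 (BB 𝕜 r)
  obtain ⟨e3⟩ := linf_cons 𝕜 (BB 𝕜 r)
  refine ⟨e1.trans ?_⟩
  refine ((e2.prodCongr (ContinuousLinearEquiv.refl 𝕜 q.ker)).trans ?_)
  refine (ContinuousLinearEquiv.prodAssoc 𝕜 _ _ q.ker).trans ?_
  refine ((ContinuousLinearEquiv.refl 𝕜 _).prodCongr e1.symm).trans ?_
  exact e3.symm

variable (𝕜 r) in
/-- `BB` is complemented in `ℓ^∞(L_r)`. -/
theorem BB_compl : Compl 𝕜 (BB 𝕜 r) (lp (fun _ : ℕ => Lp 𝕜 r I01) ⊤) := by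
  refine ⟨toL (W := fun _ : ℕ => Lp 𝕜 r I01) (fun n => (und 𝕜 r n).comp
      ((cut 𝕜 r (n + 1) (2 ^ n)).comp
        (evL 𝕜 (fun n : ℕ => PiLp r (fun _ : Fin (n + 1) => 𝕜)) n)))
      (fun n v => (norm_und_le _ _).trans ((norm_cut_le _ _ _).trans (norm_evL_le 𝕜 _ _))),
    toL (W := fun n : ℕ => PiLp r (fun _ : Fin (n + 1) => 𝕜)) (fun n =>
      (cut 𝕜 r (2 ^ n) (n + 1)).comp ((disc 𝕜 r n).comp (evL 𝕜 (fun _ : ℕ => Lp 𝕜 r I01) n)))
      (fun n v => (norm_cut_le _ _ _).trans ((norm_disc_le _ _).trans (norm_evL_le 𝕜 _ _))),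
    fun x => ?_⟩
  apply lp.ext
  funext n
  change cut 𝕜 r (2 ^ n) (n + 1) (disc 𝕜 r n (und 𝕜 r n (cut 𝕜 r (n + 1) (2 ^ n) (x n)))) = x n
  rw [disc_und]
  exact cut_cut (Nat.lt_two_pow_self) _

end

end Pool.Agent.X206.LLr
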