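import Mathlib
import Pool.Agent.X206.LLr.Disc
import Pool.Agent.X206.LLr.Mart
import Pool.Agent.X206.LLr.Boch
import Pool.Agent.X206.LLr.Seq
import Pool.Agent.Helper234.LInfS.Suff

set_option linter.unusedSectionVars false

open MeasureTheory Filter Topology
open scoped ENNReal

namespace Pool.Agent.X206.LLr

open Pool.Agent.Helper234.LInf Pool.Agent.Helper234.LInfS

/-- Limits along a free ultrafilter. -/
noncomputable def ulim {Y : Type*} [NormedAddCommGroup Y] (a : ℕ → Y) : Y :=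
  limUnder (hyperfilter ℕ : Filter ℕ) a

lemma ulim_tendsto {Y : Type*} [NormedAddCommGroup Y] [ProperSpace Y] (a : ℕ → Y) (C : ℝ)
    (h : ∀ n, ‖a n‖ ≤ C) : Tendsto a (hyperfilter ℕ : Filter ℕ) (𝓝 (ulim a)) := by
  obtain ⟨x, -, hx⟩ := (isCompact_closedBall (0 : Y) C).ultrafilter_le_nhds
    ((hyperfilter ℕ).map a) (by
      rw [le_principal_iff]
      refine Filter.mem_map.2 (Filter.univ_mem' fun n => ?_)
      simpa using h n)
  exact tendsto_nhds_limUnder ⟨x, hx⟩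

lemma hyper_le : (hyperfilter ℕ : Filter ℕ) ≤ atTop := by
  rw [← Nat.cofinite_eq_atTop]
  exact hyperfilter_le_cofinite

section
variable {𝕜 : Type} [RCLike 𝕜] {r : ℝ≥0∞} [hr1 : Fact (1 ≤ r)] [hrt : Fact (r ≠ ⊤)]

/-- Integral over a cell as a functional. -/
noncomputable def psi (n : ℕ) (l : Fin (2 ^ n)) : Lp 𝕜 r I01 →L[𝕜] 𝕜 :=
  ((kap r n * (2 ^ n : ℝ)⁻¹ : ℝ) : 𝕜) • (PiLp.proj r (fun _ => 𝕜) l).comp (disc 𝕜 r n)

lemma psi_apply (n : ℕ) (l : Fin (2 ^ n)) (x : Lp 𝕜 r I01) :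
    psi n l x = ∫ t in cell n l, x t ∂I01 := by
  change ((kap r n * (2 ^ n : ℝ)⁻¹ : ℝ) : 𝕜) • (disc 𝕜 r n x l) = _
  rw [disc_apply, ← RCLike.real_smul_eq_coe_smul (K := 𝕜), smul_smul]
  have h : kap r n * (2 ^ n)⁻¹ * ((kap r n)⁻¹ * 2 ^ n) = 1 := by
    have := (kap_pos (r := r) n).ne'
    field_simp
  rw [h, one_smul]

/-- The step function of level `m` of a sequence, integrated over a cell. -/
noncomputable def yy (z : lp (fun _ : ℕ => Lp 𝕜 r I01) ⊤) (m n : ℕ) (i : Fin (2 ^ n)) :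
    Lp 𝕜 r I01 := ∫ s in cell n i, z (2 ^ m + ix m s) ∂I01

lemma integrable_step {Y : Type*} [NormedAddCommGroup Y] (m : ℕ) (φ : Fin (2 ^ m) → Y) :
    Integrable (fun s => φ (ix m s)) I01 := by
  refine Integrable.of_bound (C := ∑ i, ‖φ i‖) ?_ ?_
  · exact ((StronglyMeasurable.of_discrete (f := φ)).comp_measurable
      (measurable_ix m)).aestronglyMeasurable
  · exact Eventually.of_forall fun t =>
      Finset.single_le_sum (f := fun i => ‖φ i‖) (fun i _ => norm_nonneg _) (Finset.mem_univ _)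

lemma norm_yy_le (z : lp (fun _ : ℕ => Lp 𝕜 r I01) ⊤) (m n : ℕ) (i : Fin (2 ^ n)) :
    ‖yy z m n i‖ ≤ (2 ^ n : ℝ)⁻¹ * ‖z‖ := by
  refine (norm_setIntegral_le_of_norm_le_const (C := ‖z‖) (measure_lt_top _ _)
    (fun s _ => lp.norm_apply_le_norm (by simp) z _)).trans ?_
  rw [I01_cell, mul_comm]

lemma yy_succ (z : lp (fun _ : ℕ => Lp 𝕜 r I01) ⊤) (m n : ℕ) (i : Fin (2 ^ n)) :
    yy z m n i = ∑ i' ∈ Finset.univ.filter (fun i' => par n i' = i), yy z m (n + 1) i' :=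
  integral_cell_succ _ (integrable_step m (fun k => z (2 ^ m + k))) n i

lemma yy_add (z z' : lp (fun _ : ℕ => Lp 𝕜 r I01) ⊤) (m n : ℕ) (i : Fin (2 ^ n)) :
    yy (z + z') m n i = yy z m n i + yy z' m n i := by
  unfold yy
  rw [← integral_add (integrable_step m (fun k => z (2 ^ m + k))).integrableOn
    (integrable_step m (fun k => z' (2 ^ m + k))).integrableOn]
  rfl

lemma yy_smul (c : 𝕜) (z : lp (fun _ : ℕ => Lp 𝕜 r I01) ⊤) (m n : ℕ) (i : Fin (2 ^ n)) :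
    yy (c • z) m n i = c • yy z m n i := by
  unfold yy
  rw [← integral_smul]
  rfl

/-- The discretised averages. -/
noncomputable def aa (z : lp (fun _ : ℕ => Lp 𝕜 r I01) ⊤) (n : ℕ) (i : Fin (2 ^ n)) (m : ℕ) :
    PiLp r (fun _ : Fin (2 ^ n) => 𝕜) := disc 𝕜 r n ((2 ^ n : 𝕜) • yy z m n i)

lemma norm_aa_le (z : lp (fun _ : ℕ => Lp 𝕜 r I01) ⊤) (n : ℕ) (i : Fin (2 ^ n)) (m : ℕ) :
    ‖aa z n i m‖ ≤ ‖z‖ := by
  refine (norm_disc_le _ _).trans ?_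
  rw [norm_smul]
  have h1 : ‖(2 ^ n : 𝕜)‖ = 2 ^ n := by simp
  rw [h1]
  calc (2 : ℝ) ^ n * ‖yy z m n i‖ ≤ 2 ^ n * ((2 ^ n : ℝ)⁻¹ * ‖z‖) := by
        gcongr
        exact norm_yy_le z m n i
    _ = ‖z‖ := by rw [← mul_assoc, mul_inv_cancel₀ (by positivity), one_mul]

/-- The limit coefficients. -/
noncomputable def vv (z : lp (fun _ : ℕ => Lp 𝕜 r I01) ⊤) (n : ℕ) (i : Fin (2 ^ n)) :
    PiLp r (fun _ : Fin (2 ^ n) => 𝕜) := ulim (aa z n i)

lemma vv_tendsto (z : lp (fun _ : ℕ => Lp 𝕜 r I01) ⊤) (n : ℕ) (i : Fin (2 ^ n)) :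
    Tendsto (aa z n i) (hyperfilter ℕ : Filter ℕ) (𝓝 (vv z n i)) := by
  have : ProperSpace (PiLp r (fun _ : Fin (2 ^ n) => 𝕜)) := FiniteDimensional.proper_rclike 𝕜 _
  exact ulim_tendsto _ ‖z‖ (norm_aa_le z n i)

lemma norm_vv_le (z : lp (fun _ : ℕ => Lp 𝕜 r I01) ⊤) (n : ℕ) (i : Fin (2 ^ n)) :
    ‖vv z n i‖ ≤ ‖z‖ :=
  le_of_tendsto (vv_tendsto z n i).norm (Eventually.of_forall fun m => norm_aa_le z n i m)

lemma vv_add (z z' : lp (fun _ : ℕ => Lp 𝕜 r I01) ⊤) (n : ℕ) (i : Fin (2 ^ n)) :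
    vv (z + z') n i = vv z n i + vv z' n i := by
  refine tendsto_nhds_unique (vv_tendsto (z + z') n i)
    (((vv_tendsto z n i).add (vv_tendsto z' n i)).congr fun m => ?_)
  simp only [aa, yy_add, smul_add, map_add]

lemma vv_smul (c : 𝕜) (z : lp (fun _ : ℕ => Lp 𝕜 r I01) ⊤) (n : ℕ) (i : Fin (2 ^ n)) :
    vv (c • z) n i = c • vv z n i := by
  refine tendsto_nhds_unique (vv_tendsto (c • z) n i)
    (((vv_tendsto z n i).const_smul c).congr fun m => ?_)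
  simp only [aa, yy_smul, map_smul]
  rw [smul_comm]

/-- The martingale. -/
noncomputable def mm (z : lp (fun _ : ℕ => Lp 𝕜 r I01) ⊤) (n : ℕ) (ω : ℝ × ℝ) : 𝕜 :=
  kap r n • vv z n (ix n ω.1) (ix n ω.2)

lemma mm_add (z z' : lp (fun _ : ℕ => Lp 𝕜 r I01) ⊤) (n : ℕ) (ω : ℝ × ℝ) :
    mm (z + z') n ω = mm z n ω + mm z' n ω := by
  simp only [mm, vv_add, PiLp.add_apply, smul_add]

lemma mm_smul (c : 𝕜) (z : lp (fun _ : ℕ => Lp 𝕜 r I01) ⊤) (n : ℕ) (ω : ℝ × ℝ) :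
    mm (c • z) n ω = c • mm z n ω := by
  simp only [mm, vv_smul, PiLp.smul_apply]
  rw [smul_comm]

/-- The weights. -/
noncomputable def ww (z : lp (fun _ : ℕ => Lp 𝕜 r I01) ⊤) (n : ℕ)
    (k : Fin (2 ^ n) × Fin (2 ^ n)) : 𝕜 :=
  ((2 ^ n : ℝ)⁻¹ * (2 ^ n : ℝ)⁻¹ * kap r n) • vv z n k.1 k.2

lemma ww_tendsto (z : lp (fun _ : ℕ => Lp 𝕜 r I01) ⊤) (n : ℕ)
    (k : Fin (2 ^ n) × Fin (2 ^ n)) :
    Tendsto (fun m => psi n k.2 (yy z m n k.1)) (hyperfilter ℕ : Filter ℕ) (𝓝 (ww z n k)) := by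
  have h1 : Tendsto (fun m => aa z n k.1 m k.2) (hyperfilter ℕ : Filter ℕ)
      (𝓝 (vv z n k.1 k.2)) :=
    ((PiLp.proj r (fun _ : Fin (2 ^ n) => 𝕜) k.2 (𝕜 := 𝕜)).continuous.tendsto _).comp
      (vv_tendsto z n k.1)
  refine (h1.const_smul ((2 ^ n : ℝ)⁻¹ * (2 ^ n : ℝ)⁻¹ * kap r n)).congr fun m => ?_
  have h2 : (2 ^ n : 𝕜) • yy z m n k.1 = (2 ^ n : ℝ) • yy z m n k.1 := by
    rw [RCLike.real_smul_eq_coe_smul (K := 𝕜)]
    congr 1
    push_cast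
    rfl
  rw [psi_apply, aa, disc_apply, smul_smul, h2]
  have h3 : ∫ t in cell n k.2, ((2 ^ n : ℝ) • yy z m n k.1 : Lp 𝕜 r I01) t ∂I01 =
      (2 ^ n : ℝ) • ∫ t in cell n k.2, yy z m n k.1 t ∂I01 := by
    rw [← integral_smul]
    exact integral_congr_ae (ae_restrict_of_ae (Lp.coeFn_smul _ _))
  rw [h3, smul_smul]
  have h4 : (2 ^ n)⁻¹ * (2 ^ n)⁻¹ * kap r n * ((kap r n)⁻¹ * 2 ^ n) * 2 ^ n = 1 := by
    have := (kap_pos (r := r) n).ne'
    field_simp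
  rw [h4, one_smul]

lemma ww_succ (z : lp (fun _ : ℕ => Lp 𝕜 r I01) ⊤) (n : ℕ)
    (k : Fin (2 ^ n) × Fin (2 ^ n)) :
    ww z n k = ∑ k' ∈ Finset.univ.filter
      (fun k' : Fin (2 ^ (n + 1)) × Fin (2 ^ (n + 1)) => (par n k'.1, par n k'.2) = k),
      ww z (n + 1) k' := by
  refine tendsto_nhds_unique (ww_tendsto z n k)
    ((tendsto_finset_sum _ fun k' _ => ww_tendsto z (n + 1) k').congr fun m => ?_)
  have h1 : psi n k.2 (yy z m n k.1) = ∑ l' ∈ Finset.univ.filter (fun l' => par n l' = k.2),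
      psi (n + 1) l' (yy z m n k.1) := by
    simp only [psi_apply]
    exact integral_cell_succ _ (integrable_Lp _) n k.2
  rw [h1]
  simp only [yy_succ z m n k.1, map_sum]
  rw [Finset.sum_comm, ← Finset.sum_product']
  refine Finset.sum_congr ?_ fun _ _ => rfl
  ext k'
  simp only [Finset.mem_filter, Finset.mem_univ, true_and, Finset.mem_product, Prod.ext_iff]

lemma l1_le (x : Lp 𝕜 r I01) : ∫ t, ‖x t‖ ∂I01 ≤ ‖x‖ := by
  rw [integral_norm_eq_lintegral_enorm (Lp.aestronglyMeasurable x), Lp.norm_def,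
    ← eLpNorm_one_eq_lintegral_enorm]
  exact ENNReal.toReal_mono (Lp.eLpNorm_ne_top x)
    (eLpNorm_le_eLpNorm_of_exponent_le hr1.out (Lp.aestronglyMeasurable x))

lemma sum_ww_le (z : lp (fun _ : ℕ => Lp 𝕜 r I01) ⊤) (n : ℕ) :
    ∑ k, ‖ww z n k‖ ≤ ‖z‖₊ := by
  rw [Fintype.sum_prod_type]
  have h1 : ∀ i : Fin (2 ^ n), ∑ l : Fin (2 ^ n), ‖ww z n (i, l)‖ ≤ (2 ^ n : ℝ)⁻¹ * ‖z‖ := by
    intro i
    have h2 : ∑ l : Fin (2 ^ n), ‖ww z n (i, l)‖ = (2 ^ n : ℝ)⁻¹ *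
        ∫ t, ‖kap r n • vv z n i (ix n t)‖ ∂I01 := by
      rw [integral_ix n (fun l => ‖kap r n • vv z n i l‖), Finset.mul_sum]
      refine Finset.sum_congr rfl fun l _ => ?_
      simp only [ww]
      rw [mul_assoc, mul_smul, mul_smul, norm_smul, norm_smul, smul_eq_mul, norm_inv, norm_pow,
        Real.norm_ofNat]
    rw [h2]
    gcongr
    refine le_trans (le_of_eq ?_) ((l1_le (und 𝕜 r n (vv z n i))).trans
      ((norm_und_le _ _).trans (norm_vv_le z n i)))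
    refine integral_congr_ae ?_
    filter_upwards [und_coe n (vv z n i)] with t ht
    rw [ht]
  refine (Finset.sum_le_sum fun i _ => h1 i).trans (le_of_eq ?_)
  rw [Finset.sum_const, Finset.card_univ, Fintype.card_fin, nsmul_eq_mul, ← mul_assoc]
  push_cast
  rw [mul_inv_cancel₀ (by positivity), one_mul]

lemma mm_conv (z : lp (fun _ : ℕ => Lp 𝕜 r I01) ⊤) :
    ∀ᵐ ω ∂(I01.prod I01), ∃ a, Tendsto (fun n => mm z n ω) atTop (𝓝 a) := by
  have h := mart_conv' (𝕜 := 𝕜) (I01.prod I01) (fun n => Fin (2 ^ n) × Fin (2 ^ n))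
    (fun n ω => (ix n ω.1, ix n ω.2))
    (fun n => ((measurable_ix n).comp measurable_fst).prodMk
      ((measurable_ix n).comp measurable_snd))
    (fun n k => (par n k.1, par n k.2)) (fun n ω => by rw [← par_ix, ← par_ix])
    (fun n => (2 ^ n : ℝ)⁻¹ * (2 ^ n : ℝ)⁻¹) (fun n k => by
      have h1 : (fun ω : ℝ × ℝ => (ix n ω.1, ix n ω.2)) ⁻¹' {k} = cell n k.1 ×ˢ cell n k.2 := by
        ext ω
        simp [cell, Prod.ext_iff]
      rw [h1, measureReal_prod_prod, I01_cell, I01_cell]) (fun n => by positivity)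
    (ww z) (ww_succ z) ‖z‖₊ (sum_ww_le z)
  filter_upwards [h] with ω hω
  obtain ⟨a, ha⟩ := hω
  refine ⟨a, ha.congr fun n => ?_⟩
  simp only [ww, mm, smul_smul]
  congr 1
  field_simp

/-- `F` is the limit of the martingale of `z`. -/
def IsLim (z : lp (fun _ : ℕ => Lp 𝕜 r I01) ⊤) (F : Lp (Lp 𝕜 r I01) ⊤ I01) : Prop :=
  ∀ᵐ s ∂I01, ∀ᵐ t ∂I01, Tendsto (fun n => mm z n (s, t)) atTop (𝓝 ((F s) t))

lemma IsLim.unique {z : lp (fun _ : ℕ => Lp 𝕜 r I01) ⊤} {F F' : Lp (Lp 𝕜 r I01) ⊤ I01}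
    (h : IsLim z F) (h' : IsLim z F') : F = F' := by
  apply Lp.ext
  filter_upwards [h, h'] with s hs hs'
  apply Lp.ext
  filter_upwards [hs, hs'] with t ht ht'
  exact tendsto_nhds_unique ht ht'

lemma measurable_mm (z : lp (fun _ : ℕ => Lp 𝕜 r I01) ⊤) (n : ℕ) :
    StronglyMeasurable (mm z n) := by
  have h1 : StronglyMeasurable (fun k : Fin (2 ^ n) × Fin (2 ^ n) =>
      kap r n • vv z n k.1 k.2) := StronglyMeasurable.of_discrete
  exact h1.comp_measurable (g := fun ω : ℝ × ℝ => (ix n ω.1, ix n ω.2))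
    (((measurable_ix n).comp measurable_fst).prodMk ((measurable_ix n).comp measurable_snd))

lemma eLpNorm_mm_le (z : lp (fun _ : ℕ => Lp 𝕜 r I01) ⊤) (n : ℕ) (s : ℝ) :
    eLpNorm (fun t => mm z n (s, t)) r I01 ≤ ENNReal.ofReal ‖z‖ := by
  have h1 : eLpNorm (fun t => mm z n (s, t)) r I01 = ‖und 𝕜 r n (vv z n (ix n s))‖ₑ := by
    rw [Lp.enorm_def]
    refine eLpNorm_congr_ae ?_
    filter_upwards [und_coe n (vv z n (ix n s))] with t ht
    rw [ht]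
    rfl
  rw [h1, ← ofReal_norm]
  exact ENNReal.ofReal_le_ofReal ((norm_und_le _ _).trans (norm_vv_le z n _))

lemma exists_lim (z : lp (fun _ : ℕ => Lp 𝕜 r I01) ⊤) :
    ∃ F : Lp (Lp 𝕜 r I01) ⊤ I01, ‖F‖ ≤ ‖z‖ ∧ IsLim z F := by
  let gg : ℝ × ℝ → 𝕜 := fun ω => limUnder atTop (fun n => mm z n ω)
  have hgg : ∀ᵐ ω ∂(I01.prod I01), Tendsto (fun n => mm z n ω) atTop (𝓝 (gg ω)) := by
    filter_upwards [mm_conv z] with ω hω
    exact tendsto_nhds_limUnder hω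
  have hm : AEStronglyMeasurable gg (I01.prod I01) :=
    aestronglyMeasurable_of_tendsto_ae atTop
      (fun n => (measurable_mm z n).aestronglyMeasurable) hgg
  have hgg' : ∀ᵐ s ∂I01, ∀ᵐ t ∂I01, Tendsto (fun n => mm z n (s, t)) atTop (𝓝 (gg (s, t))) :=
    Measure.ae_ae_of_ae_prod hgg
  have hb : ∀ᵐ s ∂I01, eLpNorm (fun t => gg (s, t)) r I01 ≤ ENNReal.ofReal ‖z‖ := by
    filter_upwards [hgg'] with s hs
    refine (Lp.eLpNorm_lim_le_liminf_eLpNorm (f := fun n t => mm z n (s, t)) (fun n =>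
      ((measurable_mm z n).comp_measurable measurable_prodMk_left).aestronglyMeasurable)
      _ hs).trans ?_
    refine (liminf_le_liminf (Eventually.of_forall fun n => eLpNorm_mm_le z n s)).trans ?_
    rw [liminf_const]
  obtain ⟨F, hF1, hF2⟩ := exists_bochner r hrt.out gg hm ‖z‖ (norm_nonneg _) hb
  refine ⟨F, hF1, ?_⟩
  filter_upwards [hF2, hgg'] with s h1 h2
  filter_upwards [h1, h2] with t h3 h4
  rw [h3]
  exact h4

variable (𝕜 r) in
/-- The limit operator, as a linear map. -/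
noncomputable def qqL : lp (fun _ : ℕ => Lp 𝕜 r I01) ⊤ →ₗ[𝕜] Lp (Lp 𝕜 r I01) ⊤ I01 where
  toFun := fun z => (exists_lim z).choose
  map_add' := fun z z' => by
    refine (exists_lim (z + z')).choose_spec.2.unique ?_
    filter_upwards [(exists_lim z).choose_spec.2, (exists_lim z').choose_spec.2,
      Lp.coeFn_add (exists_lim z).choose (exists_lim z').choose] with s h1 h2 h3
    rw [h3, Pi.add_apply]
    filter_upwards [h1, h2, Lp.coeFn_add ((exists_lim z).choose s)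
      ((exists_lim z').choose s)] with t h4 h5 h6
    rw [h6, Pi.add_apply]
    exact (h4.add h5).congr fun n => (mm_add z z' n (s, t)).symm
  map_smul' := fun c z => by
    refine (exists_lim (c • z)).choose_spec.2.unique ?_
    filter_upwards [(exists_lim z).choose_spec.2,
      Lp.coeFn_smul c (exists_lim z).choose] with s h1 h3
    rw [RingHom.id_apply, h3, Pi.smul_apply]
    filter_upwards [h1, Lp.coeFn_smul c ((exists_lim z).choose s)] with t h4 h6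
    rw [h6, Pi.smul_apply]
    exact (h4.const_smul c).congr fun n => (mm_smul c z n (s, t)).symm

lemma norm_qqL_le (z : lp (fun _ : ℕ => Lp 𝕜 r I01) ⊤) : ‖qqL 𝕜 r z‖ ≤ 1 * ‖z‖ := by
  rw [one_mul]
  exact (exists_lim z).choose_spec.1

variable (𝕜 r) in
/-- The limit operator. -/
noncomputable def qq : lp (fun _ : ℕ => Lp 𝕜 r I01) ⊤ →L[𝕜] Lp (Lp 𝕜 r I01) ⊤ I01 :=
  LinearMap.mkContinuous (qqL 𝕜 r) 1 norm_qqL_le

lemma qq_isLim (z : lp (fun _ : ℕ => Lp 𝕜 r I01) ⊤) : IsLim z (qq 𝕜 r z) :=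
  (exists_lim z).choose_spec.2

end

end Pool.Agent.X206.LLr
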