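import Mathlib
import Pool.Agent.X206.LLr.Core

set_option linter.unusedSectionVars false

open MeasureTheory Filter Topology
open scoped ENNReal

namespace Pool.Agent.X206.LLr

open Pool.Agent.Helper234.LInf Pool.Agent.Helper234.LInfS

lemma cell_union (n m : ℕ) (hnm : n ≤ m) (k : Fin (2 ^ n)) :
    ∃ A : Finset (Fin (2 ^ m)), cell n k = ix m ⁻¹' A := by
  induction m, hnm using Nat.le_induction with
  | base => exact ⟨{k}, by simp [cell]⟩
  | succ m _ ih =>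
    obtain ⟨A, hA⟩ := ih
    refine ⟨Finset.univ.filter (fun k' => par m k' ∈ A), ?_⟩
    rw [hA]
    ext t
    simp only [Set.mem_preimage, Finset.coe_filter, Finset.mem_univ, true_and, Set.mem_ofPred_eq,
      Finset.mem_coe]
    rw [← par_ix]

section
variable {Y : Type*} [NormedAddCommGroup Y] [NormedSpace ℝ Y] [CompleteSpace Y]

/-- The average of level `n` at `s`. -/
noncomputable def av (f : ℝ → Y) (n : ℕ) (s : ℝ) : Y := (2 ^ n : ℝ) • ∫ t in cell n (ix n s), f t ∂I01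

lemma integral_av (f : ℝ → Y) (hf : Integrable f I01) (n m : ℕ) (hnm : n ≤ m) (k : Fin (2 ^ n)) :
    ∫ s in cell n k, av f m s ∂I01 = ∫ s in cell n k, f s ∂I01 := by
  obtain ⟨A, hA⟩ := cell_union n m hnm k
  have h1 : ∫ s in ix m ⁻¹' A, av f m s ∂I01 = _ :=
    integral_step I01 (ix m) (measurable_ix m)
      (fun k' => (2 ^ m : ℝ) • ∫ t in cell m k', f t ∂I01) A
  rw [hA, integral_union I01 (ix m) (measurable_ix m) f hf, h1]
  refine Finset.sum_congr rfl fun k' _ => ?_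
  have := I01_cell m k'
  unfold cell at this ⊢
  rw [this, smul_smul, inv_mul_cancel₀ (by positivity), one_smul]

lemma av_tendsto (f : ℝ → Y) (hf : Integrable f I01) :
    ∀ᵐ s ∂I01, Tendsto (fun n => av f n s) atTop (𝓝 (f s)) := by
  filter_upwards [dyadic_ae f hf, I01_ae_mem] with s hs hs'
  refine hs.congr fun n => ?_
  unfold av
  congr 1
  rw [← ix_eq_of_mem hs']
  exact (setIntegral_congr_set (cell_ae n (ix n s))).symm

end

section
variable {𝕜 : Type} [RCLike 𝕜] {r : ℝ≥0∞} [hr1 : Fact (1 ≤ r)] [hrt : Fact (r ≠ ⊤)]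

variable (𝕜 r) in
/-- The projection onto step functions of level `n`. -/
noncomputable def PP (n : ℕ) : Lp 𝕜 r I01 →L[𝕜] Lp 𝕜 r I01 := (und 𝕜 r n).comp (disc 𝕜 r n)

lemma PP_coe (n : ℕ) (x : Lp 𝕜 r I01) : PP 𝕜 r n x =ᵐ[I01] fun t => av x n t :=
  und_disc_coe n x

lemma norm_PP_le (n : ℕ) (x : Lp 𝕜 r I01) : ‖PP 𝕜 r n x‖ ≤ ‖x‖ :=
  (norm_und_le _ _).trans (norm_disc_le _ _)

lemma disc_PP (n m : ℕ) (hnm : n ≤ m) (x : Lp 𝕜 r I01) : disc 𝕜 r n (PP 𝕜 r m x) = disc 𝕜 r n x := by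
  ext l
  rw [disc_apply, disc_apply]
  congr 1
  rw [integral_congr_ae (ae_restrict_of_ae (PP_coe m x)), integral_av _ (integrable_Lp x) n m hnm]

/-- `z` is the sequence of discretised averages of `f`. -/
def IsAvg (f : Lp (Lp 𝕜 r I01) ⊤ I01) (z : lp (fun _ : ℕ => Lp 𝕜 r I01) ⊤) : Prop :=
  ∀ (m : ℕ) (k : Fin (2 ^ m)), z (2 ^ m + k) =
    PP 𝕜 r m ((2 ^ m : ℝ) • ∫ s in cell m k, f s ∂I01)

lemma vv_of_avg {f : Lp (Lp 𝕜 r I01) ⊤ I01} {z : lp (fun _ : ℕ => Lp 𝕜 r I01) ⊤}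
    (h : IsAvg f z) (n : ℕ) (i : Fin (2 ^ n)) :
    vv z n i = disc 𝕜 r n ((2 ^ n : ℝ) • ∫ s in cell n i, f s ∂I01) := by
  refine tendsto_nhds_unique (vv_tendsto z n i) ?_
  refine Tendsto.mono_left ?_ hyper_le
  refine tendsto_const_nhds.congr' ?_
  filter_upwards [eventually_ge_atTop n] with m hm
  have hf : Integrable (f : ℝ → Lp 𝕜 r I01) I01 := Lp_top_integrable f
  have h1 : yy z m n i = PP 𝕜 r m (∫ s in cell n i, f s ∂I01) := by
    unfold yy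
    have h2 : ∀ s, z (2 ^ m + ix m s) = PP 𝕜 r m (av f m s) := fun s => h m (ix m s)
    simp only [h2]
    rw [ContinuousLinearMap.integral_comp_comm, integral_av _ hf n m hm]
    exact (integrable_step m (fun k' => (2 ^ m : ℝ) • ∫ t in cell m k', f t ∂I01)).integrableOn
  rw [aa, h1, ← map_smul, disc_PP n m hm]
  congr 1
  rw [RCLike.real_smul_eq_coe_smul (K := 𝕜)]
  congr 1
  push_cast
  rfl

/-- The limit operator reproduces `f` from its discretised averages. -/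
lemma qq_of_avg {f : Lp (Lp 𝕜 r I01) ⊤ I01} {z : lp (fun _ : ℕ => Lp 𝕜 r I01) ⊤}
    (h : IsAvg f z) : qq 𝕜 r z = f := by
  apply Lp.ext
  filter_upwards [qq_isLim z, av_tendsto (f : ℝ → Lp 𝕜 r I01) (Lp_top_integrable f)] with s h1 h2
  have h3 := av_tendsto (f s : ℝ → 𝕜) (integrable_Lp (f s))
  -- the difference of the martingale and the averages of the section
  have h4 : ∀ n, (fun t => mm z n (s, t) - av (f s : ℝ → 𝕜) n t) =ᵐ[I01]
      PP 𝕜 r n (av f n s - f s) := by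
    intro n
    have h5 : PP 𝕜 r n (av f n s) = und 𝕜 r n (vv z n (ix n s)) := by
      rw [vv_of_avg h n (ix n s)]
      rfl
    rw [map_sub, h5]
    filter_upwards [Lp.coeFn_sub (und 𝕜 r n (vv z n (ix n s))) (PP 𝕜 r n (f s)),
      und_coe n (vv z n (ix n s)), PP_coe n (f s)] with t h6 h7 h8
    rw [h6, Pi.sub_apply, h7, h8]
    rfl
  have h5 : ∀ᵐ t ∂I01, Tendsto (fun n => mm z n (s, t) - av (f s : ℝ → 𝕜) n t) atTop
      (𝓝 ((qq 𝕜 r z s) t - (f s) t)) := by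
    filter_upwards [h1, h3] with t h6 h7
    exact h6.sub h7
  have h6 : eLpNorm (fun t => (qq 𝕜 r z s) t - (f s) t) r I01 ≤
      atTop.liminf fun n => eLpNorm (fun t => mm z n (s, t) - av (f s : ℝ → 𝕜) n t) r I01 := by
    refine Lp.eLpNorm_lim_le_liminf_eLpNorm (fun n => ?_) _ h5
    exact (Lp.aestronglyMeasurable (PP 𝕜 r n (av f n s - f s))).congr (h4 n).symm
  have h7 : Tendsto (fun n => eLpNorm (fun t => mm z n (s, t) - av (f s : ℝ → 𝕜) n t) r I01)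
      atTop (𝓝 0) := by
    have h8 : Tendsto (fun n => ENNReal.ofReal ‖av f n s - f s‖) atTop (𝓝 0) := by
      have h9 := (tendsto_iff_norm_sub_tendsto_zero.1 h2)
      have := ENNReal.tendsto_ofReal h9
      rwa [ENNReal.ofReal_zero] at this
    refine tendsto_of_tendsto_of_tendsto_of_le_of_le tendsto_const_nhds h8 (fun n => zero_le)
      (fun n => ?_)
    change eLpNorm _ r I01 ≤ _
    rw [eLpNorm_congr_ae (h4 n), ← Lp.enorm_def, ← ofReal_norm]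
    exact ENNReal.ofReal_le_ofReal (norm_PP_le _ _)
  rw [h7.liminf_eq] at h6
  have h8 : eLpNorm (fun t => (qq 𝕜 r z s) t - (f s) t) r I01 = 0 := le_antisymm h6 zero_le
  have hr0 : r ≠ 0 := (lt_of_lt_of_le zero_lt_one hr1.out).ne'
  have h9 := (eLpNorm_eq_zero_iff ((Lp.aestronglyMeasurable (qq 𝕜 r z s)).sub
    (Lp.aestronglyMeasurable (f s))) hr0).1 h8
  apply Lp.ext
  filter_upwards [h9] with t ht
  exact sub_eq_zero.1 ht

variable (𝕜 r) in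
/-- The averages, discretised and padded. -/
noncomputable def jj : Lp (Lp 𝕜 r I01) ⊤ I01 →L[𝕜] BB 𝕜 r :=
  (toL (W := fun n : ℕ => PiLp r (fun _ : Fin (n + 1) => 𝕜)) (fun N =>
    (cut 𝕜 r (2 ^ Nat.log 2 N) (N + 1)).comp ((disc 𝕜 r (Nat.log 2 N)).comp
      (evL 𝕜 (fun _ : ℕ => Lp 𝕜 r I01) N)))
    (fun N v => (norm_cut_le _ _ _).trans ((norm_disc_le _ _).trans (norm_evL_le 𝕜 _ _)))).comp
  (avgs 𝕜 (Lp 𝕜 r I01))

variable (𝕜 r) in
/-- From the sum of the finite-dimensional spaces to sequences in `L_r`. -/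
noncomputable def uu : BB 𝕜 r →L[𝕜] lp (fun _ : ℕ => Lp 𝕜 r I01) ⊤ :=
  toL (W := fun _ : ℕ => Lp 𝕜 r I01) (fun N =>
    (und 𝕜 r (Nat.log 2 N)).comp ((cut 𝕜 r (N + 1) (2 ^ Nat.log 2 N)).comp
      (evL 𝕜 (fun n : ℕ => PiLp r (fun _ : Fin (n + 1) => 𝕜)) N)))
    (fun N v => (norm_und_le _ _).trans ((norm_cut_le _ _ _).trans (norm_evL_le 𝕜 _ _)))

lemma isAvg_uu_jj (f : Lp (Lp 𝕜 r I01) ⊤ I01) : IsAvg f (uu 𝕜 r (jj 𝕜 r f)) := by
  have h1 : ∀ N : ℕ, uu 𝕜 r (jj 𝕜 r f) N = PP 𝕜 r (Nat.log 2 N) (avgs 𝕜 (Lp 𝕜 r I01) f N) := by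
    intro N
    change und 𝕜 r (Nat.log 2 N) (cut 𝕜 r (N + 1) (2 ^ Nat.log 2 N)
      (cut 𝕜 r (2 ^ Nat.log 2 N) (N + 1) (disc 𝕜 r (Nat.log 2 N)
        (avgs 𝕜 (Lp 𝕜 r I01) f N)))) = _
    rw [cut_cut]
    · rfl
    · rcases Nat.eq_zero_or_pos N with rfl | hN
      · simp
      · exact (Nat.pow_log_le_self 2 hN.ne').trans (Nat.le_succ N)
  intro m k
  have h2 : Nat.log 2 (2 ^ m + k) = m := by
    apply Nat.log_eq_of_pow_le_of_lt_pow
    · omega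
    · rw [pow_succ]
      have := k.2
      omega
  rw [h1, h2, avgs_apply 𝕜 (Lp 𝕜 r I01) f m k k.2]
  congr 2
  exact (setIntegral_congr_set (cell_ae m k)).symm

variable (𝕜 r) in
/-- The Bochner space is complemented in the sum of the finite-dimensional spaces. -/
theorem E_compl : Compl 𝕜 (Lp (Lp 𝕜 r I01) ⊤ I01) (BB 𝕜 r) :=
  ⟨jj 𝕜 r, (qq 𝕜 r).comp (uu 𝕜 r), fun f => qq_of_avg (isAvg_uu_jj f)⟩

variable (𝕜 r) in
/-- The main isomorphism. -/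
theorem main : Nonempty (Lp (Lp 𝕜 r I01) ⊤ I01 ≃L[𝕜] BB 𝕜 r) := by
  obtain ⟨e⟩ := BB_equiv 𝕜 r
  obtain ⟨j, q, hjq⟩ := (E_compl 𝕜 r).trans (Compl.of_equiv e)
  have h1 : Compl 𝕜 (lp (fun _ : ℕ => Lp 𝕜 r I01) ⊤) (Lp (Lp 𝕜 r I01) ⊤ I01) := by
    obtain ⟨i, p, hip⟩ := compl1 𝕜 (Lp 𝕜 r I01)
    exact ⟨i, p, hip⟩
  obtain ⟨j', q', hjq'⟩ := (Compl.of_equiv e.symm).trans ((BB_compl 𝕜 r).trans h1)
  obtain ⟨e'⟩ := decomp (square_Lp 𝕜 (Lp 𝕜 r I01)) (square_lp 𝕜 (BB 𝕜 r)) j q hjq j' q' hjq'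
  exact ⟨e'.trans e.symm⟩

end

end Pool.Agent.X206.LLr
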